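import Pool.Agent.L0h37.KM.GSAll

set_option autoImplicit false

/-!
# Shifted moments of zeta of every order, for almost all shift vectors
-/

namespace Pool.Agent.Results.MP_fa2474_nt.AlmostAllShiftVectors

open Complex Filter Topology MeasureTheory Set

noncomputable section

variable {k : ℕ}

/-- `τ_l(n) = ∑_{d_1⋯d_k = n} ∏_j d_j^(l_j)`. -/
def tau (l : Fin k → ℂ) (n : ℕ) : ℂ := ∑ d ∈ Nat.finMulAntidiag k n, ∏ j, (d j : ℂ) ^ (l j)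

/-- The local factor at `p` of `F(1/2;a,b)`:
`∏_{j,l} (1 - p^(-(1+ia_j-ib_l))) ∑_m τ_{ib}(p^m) τ_{-ia}(p^m) p^(-m)`. -/
def localFactor (a b : Fin k → ℝ) (p : ℕ) : ℂ :=
  (∏ j, ∏ l, (1 - (p : ℂ) ^ (-(1 + I * a j - I * b l)))) *
    ∑' m : ℕ, tau (fun j => I * b j) (p ^ m) * tau (fun j => -(I * a j)) (p ^ m) * ((p : ℂ) ^ m)⁻¹

/-- `ζ_{(a,b)}(1/2) = F(1/2;a,b) ∏_{j,l} ζ(1+ia_j-ib_l)`. -/
def zetaHalf (a b : Fin k → ℝ) : ℂ :=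
  (∏' p : Nat.Primes, localFactor a b p) * ∏ j, ∏ l, riemannZeta (1 + I * a j - I * b l)

/-- `χ(s) = π^(s-1/2) Γ((1-s)/2)/Γ(s/2)`. -/
def chi (s : ℂ) : ℂ := (Real.pi : ℂ) ^ (s - 1 / 2) * Gamma ((1 - s) / 2) / Gamma (s / 2)

/-- The factor `G_γ(π)`; the block `inl` of `γ` is `α`, the block `inr` is `β`. -/
def swapFactor (t : ℝ) (γ : Fin k ⊕ Fin k → ℝ) (π : Equiv.Perm (Fin k ⊕ Fin k)) : ℂ :=
  (∏ j : Fin k, if (π (Sum.inl j)).isRight then chi (1 / 2 - I * t - I * γ (π (Sum.inl j))) else 1) *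
    ∏ j : Fin k, if (π (Sum.inr j)).isLeft then chi (1 / 2 + I * t + I * γ (π (Sum.inr j))) else 1

/-- `Q_k(t;γ)`: the sum over the classes of permutations modulo `S_k × S_k`, written as `(k!)^(-2)` times the sum over all
permutations. -/
def recipe (t : ℝ) (γ : Fin k ⊕ Fin k → ℝ) : ℂ :=
  ((Nat.factorial k : ℂ) ^ 2)⁻¹ * ∑ π : Equiv.Perm (Fin k ⊕ Fin k),
    swapFactor t γ π * zetaHalf (fun j => γ (π (Sum.inl j))) (fun j => γ (π (Sum.inr j)))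

/-- `Z_{α,β}(t) = ∏_j ζ(1/2+i(t+α_j)) ζ(1/2-i(t+β_j))`. -/
def zetaProduct (γ : Fin k ⊕ Fin k → ℝ) (t : ℝ) : ℂ :=
  ∏ j : Fin k, riemannZeta (1 / 2 + I * (t + γ (Sum.inl j))) * riemannZeta (1 / 2 - I * (t + γ (Sum.inr j)))

/-- For every `k` there are `δ > 0` and `T₀` such that for `T ≥ T₀`, all `γ = (α,β)` in `[0,T]^(2k)` outside a set of
measure at most `T^(2k-δ)` satisfy `|∫_0^S (Z_{α,β}(t) - Q_k(t;α,β)) dt| ≤ T^(1-δ)` for all `0 ≤ S ≤ T`. The local factors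
of `F(1/2;a,b)` are `1 + O(p^(-2))`, uniformly in `a`, `b`. -/
theorem result (k : ℕ) :
    (∃ C : ℝ, ∀ (a b : Fin k → ℝ) (p : ℕ), p.Prime → ‖localFactor a b p - 1‖ ≤ C / (p : ℝ) ^ 2) ∧
    ∃ δ : ℝ, 0 < δ ∧ ∃ T₀ : ℝ, ∀ T : ℝ, T₀ ≤ T →
      volume {γ : Fin k ⊕ Fin k → ℝ | (∀ i, γ i ∈ Icc 0 T) ∧
        ∃ S ∈ Icc 0 T, T ^ (1 - δ) < ‖∫ t in (0 : ℝ)..S, (zetaProduct γ t - recipe t γ)‖} ≤
      ENNReal.ofReal (T ^ (2 * k - δ : ℝ)) := by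
  refine ⟨⟨Pool.Agent.TH612.CF.CK k 0, fun a b p hp => ?_⟩, ?_⟩
  · have hT : Pool.Agent.TH612.CF.Tb (0 : ℝ) (fun j => (a j : ℂ)) (fun j => (b j : ℂ)) := by
      intro j
      simp
    have h := Pool.Agent.TH612.CF.lh_le (c := 0) (by norm_num) hT hp
    have e : (4 * 0 - 2 : ℝ) = -(2 : ℕ) := by norm_num
    rw [e, Real.rpow_neg (Nat.cast_nonneg p), Real.rpow_natCast] at h
    exact h
  · obtain ⟨δ, hδ, T₀, h⟩ := Pool.Agent.L0h37.KM.gs_main k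
    refine ⟨δ, hδ, T₀, fun T hT => ?_⟩
    refine le_trans (le_of_eq ?_) (h T hT)
    unfold Pool.Agent.TH612.GS.mP
    rw [← Measure.restrict_pi_pi, ← volume_pi]
    have hsub : Pool.Agent.TH612.GS.Bad k T (T ^ (1 - δ)) ⊆ Set.univ.pi fun _ : Fin k ⊕ Fin k => Icc (0 : ℝ) T :=
      fun γ hγ i _ => hγ.1 i
    rw [Measure.restrict_eq_self _ hsub]
    congr 1
    ext γ
    constructor
    · rintro ⟨h1, S, hS, h2⟩
      exact ⟨h1, S, hS.1, hS.2, h2⟩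
    · rintro ⟨h1, S, hS1, hS2, h2⟩
      exact ⟨h1, S, ⟨hS1, hS2⟩, h2⟩

end

end Pool.Agent.Results.MP_fa2474_nt.AlmostAllShiftVectors
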